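import Pool.Agent.Y755.FK.Stm
import Pool.Agent.W583.HB.Per
import Pool.Agent.W766.HB.Lsv
import Pool.Agent.H359R2.Tau

/-!
# Project FK, job BIL: bilinear sums of Jacobi symbols (helper905)
-/

set_option autoImplicit false

open Finset

namespace Pool.Agent.Y905.FK

open Pool.Agent.Y755.FK H359R2

noncomputable section

theorem J_abs (a : ℤ) (n : ℕ) : |J a n| ≤ 1 := by
  unfold J
  exact_mod_cast Pool.Agent.W766.HB.Lsv.jac_abs a n

theorem J_mul (a : ℤ) (m n : ℕ) (hm : m ≠ 0) (hn : n ≠ 0) : J a (m * n) = J a m * J a n := by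
  unfold J
  have : NeZero m := ⟨hm⟩
  have : NeZero n := ⟨hn⟩
  rw [jacobiSym.mul_right]
  push_cast
  rfl

theorem sq_of_sqf {a b : ℕ} (ha : Squarefree a) (hb : Squarefree b)
    (h : IsSquare ((a : ℤ) * b)) : a = b := by
  have h1 : IsSquare (a * b) := by
    have : IsSquare ((a * b : ℕ) : ℤ) := by exact_mod_cast h
    exact Int.isSquare_natCast_iff.1 this
  obtain ⟨c, hc⟩ := h1
  have ha0 : a ≠ 0 := ha.ne_zero
  have hb0 : b ≠ 0 := hb.ne_zero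
  apply Nat.eq_of_factorization_eq ha0 hb0
  intro p
  have h2 : (a * b).factorization p = (c * c).factorization p := by rw [hc]
  have hc0 : c ≠ 0 := by
    rintro rfl
    simp at hc
    omega
  rw [Nat.factorization_mul ha0 hb0, Nat.factorization_mul hc0 hc0] at h2
  simp only [Finsupp.add_apply] at h2
  have h3 := ha.natFactorization_le_one p
  have h4 := hb.natFactorization_le_one p
  omega

/-- the large sieve, real coefficients -/
theorem ls_real (A : Finset ℕ) (X N : ℕ) (hA : ∀ x ∈ A, Squarefree x ∧ x ≤ 2 * X)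
    (hc : A.card ≤ X) (w : ℕ → ℝ) :
    ∑ n ∈ (Ioc 0 N).filter (fun n => Odd n), (∑ x ∈ A, w x * J x n) ^ 2 ≤
      (N + 16 * (X : ℝ) ^ 3) * ∑ x ∈ A, w x ^ 2 := by
  classical
  have h := Pool.Agent.W766.HB.Lsv.lsv_ Pool.Agent.W583.HB.per_ ℕ A w (fun x => (x : ℤ)) 0 N
    (Nat.zero_le _)
  refine (le_of_eq ?_).trans (h.trans ?_)
  · rfl
  have h1 : ∑ x ∈ (A ×ˢ A).filter (fun x => IsSquare (((x.1 : ℕ) : ℤ) * ((x.2 : ℕ) : ℤ))),
      |w x.1| * |w x.2| ≤ ∑ x ∈ A, w x ^ 2 := by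
    calc ∑ x ∈ (A ×ˢ A).filter (fun x => IsSquare (((x.1 : ℕ) : ℤ) * ((x.2 : ℕ) : ℤ))),
        |w x.1| * |w x.2| ≤ ∑ x ∈ A.image (fun x => (x, x)), |w x.1| * |w x.2| := by
          apply sum_le_sum_of_subset_of_nonneg
          · rintro ⟨a, b⟩ hab
            rw [mem_filter, mem_product] at hab
            obtain ⟨⟨ha, hb⟩, hs⟩ := hab
            have := sq_of_sqf (hA a ha).1 (hA b hb).1 hs
            subst this
            exact mem_image.2 ⟨a, ha, rfl⟩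
          · intro i _ _
            positivity
      _ = ∑ x ∈ A, w x ^ 2 := by
          rw [sum_image (by
            intro a _ b _ hab
            exact (Prod.mk.inj hab).1)]
          refine sum_congr rfl fun x _ => ?_
          rw [← abs_mul, abs_of_nonneg (mul_self_nonneg _)]
          ring
  have h2 : (∑ i ∈ A, |w i| * |(((i : ℕ) : ℤ) : ℝ)|) ^ 2 ≤ 4 * (X : ℝ) ^ 3 * ∑ x ∈ A, w x ^ 2 := by
    have h3 : ∑ i ∈ A, |w i| * |(((i : ℕ) : ℤ) : ℝ)| ≤ ∑ i ∈ A, |w i| * (2 * X) := by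
      refine sum_le_sum fun i hi => ?_
      apply mul_le_mul_of_nonneg_left _ (abs_nonneg _)
      have := (hA i hi).2
      rw [Int.cast_natCast, abs_of_nonneg (Nat.cast_nonneg _)]
      exact_mod_cast this
    have h4 : 0 ≤ ∑ i ∈ A, |w i| * |(((i : ℕ) : ℤ) : ℝ)| := sum_nonneg fun _ _ => by positivity
    calc (∑ i ∈ A, |w i| * |(((i : ℕ) : ℤ) : ℝ)|) ^ 2 ≤ (∑ i ∈ A, |w i| * (2 * X)) ^ 2 :=
          pow_le_pow_left₀ h4 h3 2
      _ = 4 * (X : ℝ) ^ 2 * (∑ i ∈ A, |w i|) ^ 2 := by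
          rw [← sum_mul]
          ring
      _ ≤ 4 * (X : ℝ) ^ 2 * (X * ∑ x ∈ A, w x ^ 2) := by
          apply mul_le_mul_of_nonneg_left _ (by positivity)
          have h5 := sq_sum_le_card_mul_sum_sq (s := A) (f := fun i => |w i|)
          have h6 : (A.card : ℝ) ≤ X := by exact_mod_cast hc
          have h7 : 0 ≤ ∑ x ∈ A, w x ^ 2 := sum_nonneg fun _ _ => sq_nonneg _
          simp only [sq_abs] at h5
          exact h5.trans (mul_le_mul_of_nonneg_right h6 h7)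
      _ = _ := by ring
  have h0 : (0 : ℝ) ≤ (N : ℝ) - (0 : ℕ) := by simp
  have h8 := mul_le_mul_of_nonneg_left h1 h0
  simp only [Nat.cast_zero, sub_zero] at h8 ⊢
  nlinarith [h8, h2]

/-- the large sieve, complex coefficients -/
theorem ls_complex (A : Finset ℕ) (X N : ℕ) (hA : ∀ x ∈ A, Squarefree x ∧ x ≤ 2 * X)
    (hc : A.card ≤ X) (w : ℕ → ℂ) :
    ∑ n ∈ (Ioc 0 N).filter (fun n => Odd n), ‖∑ x ∈ A, w x * (J x n : ℂ)‖ ^ 2 ≤
      (N + 16 * (X : ℝ) ^ 3) * ∑ x ∈ A, ‖w x‖ ^ 2 := by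
  have h1 := ls_real A X N hA hc (fun x => (w x).re)
  have h2 := ls_real A X N hA hc (fun x => (w x).im)
  have e : ∀ n : ℕ, ‖∑ x ∈ A, w x * (J x n : ℂ)‖ ^ 2 =
      (∑ x ∈ A, (w x).re * J x n) ^ 2 + (∑ x ∈ A, (w x).im * J x n) ^ 2 := by
    intro n
    rw [Complex.sq_norm, Complex.normSq_apply, Complex.re_sum, Complex.im_sum]
    simp only [Complex.mul_re, Complex.mul_im, Complex.ofReal_re, Complex.ofReal_im, mul_zero,
      sub_zero, zero_add]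
    ring
  have e2 : ∀ x : ℕ, ‖w x‖ ^ 2 = (w x).re ^ 2 + (w x).im ^ 2 := by
    intro x
    rw [Complex.sq_norm, Complex.normSq_apply]
    ring
  simp only [e, e2, sum_add_distrib]
  rw [mul_add]
  exact add_le_add h1 h2

/-- the dual form -/
theorem ls_dual (A : Finset ℕ) (X N : ℕ) (hA : ∀ x ∈ A, Squarefree x ∧ x ≤ 2 * X)
    (hc : A.card ≤ X) (γ : ℕ → ℂ) :
    ∑ x ∈ A, ‖∑ n ∈ (Ioc 0 N).filter (fun n => Odd n), γ n * (J x n : ℂ)‖ ^ 2 ≤
      (N + 16 * (X : ℝ) ^ 3) * ∑ n ∈ (Ioc 0 N).filter (fun n => Odd n), ‖γ n‖ ^ 2 := by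
  set O := (Ioc 0 N).filter (fun n => Odd n) with hO
  set T : ℕ → ℂ := fun x => ∑ n ∈ O, γ n * (J x n : ℂ) with hT
  set S : ℝ := ∑ x ∈ A, ‖T x‖ ^ 2 with hS
  set g : ℝ := ∑ n ∈ O, ‖γ n‖ ^ 2 with hg
  set Δ : ℝ := N + 16 * (X : ℝ) ^ 3 with hΔ
  have hS0 : 0 ≤ S := sum_nonneg fun _ _ => sq_nonneg _
  have hg0 : 0 ≤ g := sum_nonneg fun _ _ => sq_nonneg _
  have hΔ0 : 0 ≤ Δ := by positivity
  set U : ℕ → ℂ := fun n => ∑ x ∈ A, (starRingEnd ℂ) (T x) * (J x n : ℂ) with hU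
  have h1 : (S : ℂ) = ∑ n ∈ O, γ n * U n := by
    rw [hS]
    push_cast
    calc ∑ x ∈ A, ((‖T x‖ : ℂ)) ^ 2 = ∑ x ∈ A, (starRingEnd ℂ) (T x) * T x := by
          refine sum_congr rfl fun x _ => ?_
          rw [Complex.conj_mul']
      _ = ∑ x ∈ A, ∑ n ∈ O, γ n * ((starRingEnd ℂ) (T x) * (J x n : ℂ)) := by
          refine sum_congr rfl fun x _ => ?_
          conv_lhs => rw [hT]
          simp only
          rw [mul_sum]
          refine sum_congr rfl fun n _ => ?_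
          ring
      _ = ∑ n ∈ O, γ n * U n := by
          rw [sum_comm]
          refine sum_congr rfl fun n _ => ?_
          rw [hU]
          simp only
          rw [mul_sum]
  have h2 : S ≤ ∑ n ∈ O, ‖γ n‖ * ‖U n‖ := by
    have : ‖(S : ℂ)‖ ≤ ∑ n ∈ O, ‖γ n‖ * ‖U n‖ := by
      rw [h1]
      refine (norm_sum_le _ _).trans (le_of_eq (sum_congr rfl fun n _ => norm_mul _ _))
    rwa [Complex.norm_real, Real.norm_eq_abs, abs_of_nonneg hS0] at this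
  have h3 : S ^ 2 ≤ g * (∑ n ∈ O, ‖U n‖ ^ 2) :=
    (pow_le_pow_left₀ hS0 h2 2).trans (sum_mul_sq_le_sq_mul_sq O (fun n => ‖γ n‖) fun n => ‖U n‖)
  have h4 : ∑ n ∈ O, ‖U n‖ ^ 2 ≤ Δ * S := by
    have := ls_complex A X N hA hc (fun x => (starRingEnd ℂ) (T x))
    simp only [RCLike.norm_conj] at this
    exact this
  have h5 : S ^ 2 ≤ g * (Δ * S) := h3.trans (mul_le_mul_of_nonneg_left h4 hg0)
  rcases hS0.lt_or_eq with hpos | h0
  · have h6 : S * S ≤ (Δ * g) * S := by nlinarith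
    exact le_of_mul_le_mul_right h6 hpos
  · rw [← h0]
    positivity

/-- the number of representations -/
theorem rep_le (B : Finset ℕ) (n : ℕ) (hn : n ≠ 0) :
    ((((B ×ˢ B) ×ˢ B).filter (fun t => t.1.1 * t.1.2 * t.2 = n)).card) ≤ tau n ^ 2 := by
  classical
  unfold tau
  rw [sq, ← card_product]
  refine card_le_card_of_injOn (fun t => (t.1.1, t.1.2)) ?_ ?_
  · rintro ⟨⟨a, b⟩, c⟩ ht
    rw [mem_coe, mem_filter] at ht
    simp only at ht
    simp only [mem_coe, mem_product, Nat.mem_divisors]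
    refine ⟨⟨⟨b * c, by rw [← ht.2]; ring⟩, hn⟩, ⟨a * c, by rw [← ht.2]; ring⟩, hn⟩
  · rintro ⟨⟨a, b⟩, c⟩ ht ⟨⟨a', b'⟩, c'⟩ ht' h
    rw [mem_coe, mem_filter] at ht ht'
    simp only at ht ht'
    simp only [Prod.mk.injEq] at h ⊢
    obtain ⟨rfl, rfl⟩ := h
    refine ⟨⟨rfl, rfl⟩, ?_⟩
    have h1 : a * b * c = a * b * c' := ht.2.trans ht'.2.symm
    have h2 : a * b ≠ 0 := by
      intro h0
      rw [h0, zero_mul] at ht
      exact hn ht.2.symm
    exact Nat.eq_of_mul_eq_mul_left (Nat.pos_of_ne_zero h2) h1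

theorem tau_sum (B : Finset ℕ) (Y : ℕ) (hY : 1 ≤ Y) (hB : ∀ y ∈ B, 1 ≤ y ∧ y ≤ 2 * Y) :
    ∑ y ∈ B, (tau y : ℝ) ^ 2 ≤ 2 * Y * (1 + Real.log (2 * Y)) ^ 4 := by
  have h1 := tsm_le 2 (2 * Y)
  unfold tsm at h1
  push_cast at h1
  have h2 : ∑ y ∈ B, (tau y : ℝ) ^ 2 ≤ ∑ y ∈ Icc 1 (2 * Y), (2 * Y : ℝ) * ((tau y : ℝ) ^ 2 / y) := by
    calc ∑ y ∈ B, (tau y : ℝ) ^ 2 ≤ ∑ y ∈ B, (2 * Y : ℝ) * ((tau y : ℝ) ^ 2 / y) := by
          refine sum_le_sum fun y hy => ?_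
          obtain ⟨h3, h4⟩ := hB y hy
          have h5 : (0 : ℝ) < y := by exact_mod_cast h3
          have h6 : (y : ℝ) ≤ 2 * Y := by exact_mod_cast h4
          rw [mul_div_assoc', le_div_iff₀ h5]
          nlinarith [sq_nonneg (tau y : ℝ)]
      _ ≤ _ := by
          apply sum_le_sum_of_subset_of_nonneg
          · intro y hy
            exact mem_Icc.2 (hB y hy)
          · intro _ _ _
            positivity
  rw [← mul_sum] at h2
  refine h2.trans (mul_le_mul_of_nonneg_left ?_ (by positivity))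
  norm_num at h1
  exact h1

/-- the sixth moment -/
theorem sixth (A B : Finset ℕ) (X Y : ℕ) (hX : X ≤ Y) (hY : 1 ≤ Y)
    (hA : ∀ x ∈ A, Squarefree x ∧ x ≤ 2 * X) (hc : A.card ≤ X)
    (hB : ∀ y ∈ B, Odd y ∧ 1 ≤ y ∧ y ≤ 2 * Y) (β : ℕ → ℂ) (hβ : ∀ n, ‖β n‖ ≤ 1) :
    ∑ x ∈ A, ‖∑ y ∈ B, β y * (J x y : ℂ)‖ ^ 6 ≤ 192 * (Y : ℝ) ^ 6 * (1 + Real.log (2 * Y)) ^ 12 := by
  classical
  set N : ℕ := (2 * Y) ^ 3 with hN
  set O := (Ioc 0 N).filter (fun n => Odd n) with hO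
  set P := (B ×ˢ B) ×ˢ B with hP
  set m : (ℕ × ℕ) × ℕ → ℕ := fun t => t.1.1 * t.1.2 * t.2 with hm
  have hmO : ∀ t ∈ P, m t ∈ O := by
    rintro ⟨⟨a, b⟩, c⟩ ht
    simp only [hP, mem_product] at ht
    obtain ⟨⟨ha, hb⟩, hc'⟩ := ht
    obtain ⟨a1, a2, a3⟩ := hB a ha
    obtain ⟨b1, b2, b3⟩ := hB b hb
    obtain ⟨c1, c2, c3⟩ := hB c hc'
    rw [hO, mem_filter, mem_Ioc]
    refine ⟨⟨?_, ?_⟩, (a1.mul b1).mul c1⟩
    · show 0 < a * b * c
      positivity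
    · show a * b * c ≤ (2 * Y) ^ 3
      calc a * b * c ≤ (2 * Y) * (2 * Y) * (2 * Y) :=
            Nat.mul_le_mul (Nat.mul_le_mul a3 b3) c3
        _ = (2 * Y) ^ 3 := by ring
  set γ : ℕ → ℂ := fun n => ∑ t ∈ P.filter (fun t => m t = n), β t.1.1 * β t.1.2 * β t.2 with hγ
  have hcube : ∀ x : ℕ, (∑ y ∈ B, β y * (J x y : ℂ)) ^ 3 = ∑ n ∈ O, γ n * (J x n : ℂ) := by
    intro x
    have h1 : (∑ y ∈ B, β y * (J x y : ℂ)) ^ 3 =
        ∑ t ∈ P, β t.1.1 * β t.1.2 * β t.2 * (J x (m t) : ℂ) := by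
      rw [pow_succ, sq, sum_mul_sum, ← sum_product', sum_mul_sum, ← sum_product']
      refine sum_congr rfl ?_
      rintro ⟨⟨a, b⟩, c⟩ ht
      obtain ⟨⟨ha, hb⟩, hc'⟩ : (a ∈ B ∧ b ∈ B) ∧ c ∈ B := by simpa [hP] using ht
      have a0 : a ≠ 0 := by have := (hB a ha).2.1; omega
      have b0 : b ≠ 0 := by have := (hB b hb).2.1; omega
      have c0 : c ≠ 0 := by have := (hB c hc').2.1; omega
      rw [J_mul _ _ _ (mul_ne_zero a0 b0) c0, J_mul _ _ _ a0 b0]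
      push_cast
      ring
    rw [h1, ← sum_fiberwise_of_maps_to hmO]
    refine sum_congr rfl fun n _ => ?_
    rw [hγ]
    simp only
    rw [sum_mul]
    refine sum_congr rfl fun t ht => ?_
    rw [(mem_filter.1 ht).2]
  have hγle : ∀ n, ‖γ n‖ ≤ (P.filter (fun t => m t = n)).card := by
    intro n
    refine (norm_sum_le _ _).trans ?_
    rw [card_eq_sum_ones]
    push_cast
    refine sum_le_sum fun t _ => ?_
    rw [norm_mul, norm_mul]
    exact mul_le_one₀ (mul_le_one₀ (hβ _) (norm_nonneg _) (hβ _)) (norm_nonneg _) (hβ _)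
  have hγsum : ∑ n ∈ O, ‖γ n‖ ^ 2 ≤ (2 * Y * (1 + Real.log (2 * Y)) ^ 4) ^ 3 := by
    calc ∑ n ∈ O, ‖γ n‖ ^ 2 ≤ ∑ n ∈ O, ∑ t ∈ P.filter (fun t => m t = n), (tau n : ℝ) ^ 2 := by
          refine sum_le_sum fun n hn => ?_
          have hn0 : n ≠ 0 := by
            rw [hO, mem_filter, mem_Ioc] at hn
            omega
          have h1 := hγle n
          have h2 : (((P.filter (fun t => m t = n)).card : ℕ) : ℝ) ≤ (tau n : ℝ) ^ 2 := by
            exact_mod_cast rep_le B n hn0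
          rw [sum_const, nsmul_eq_mul, sq]
          exact mul_le_mul h1 (h1.trans h2) (norm_nonneg _) (Nat.cast_nonneg _)
      _ = ∑ t ∈ P, (tau (m t) : ℝ) ^ 2 := by
          rw [← sum_fiberwise_of_maps_to hmO]
          refine sum_congr rfl fun n _ => sum_congr rfl fun t ht => ?_
          rw [(mem_filter.1 ht).2]
      _ ≤ ∑ t ∈ P, (tau t.1.1 : ℝ) ^ 2 * (tau t.1.2 : ℝ) ^ 2 * (tau t.2 : ℝ) ^ 2 := by
          refine sum_le_sum fun t _ => ?_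
          have h1 : tau (m t) ≤ tau t.1.1 * tau t.1.2 * tau t.2 :=
            (tau_mul_le _ _).trans (Nat.mul_le_mul_right _ (tau_mul_le _ _))
          have h2 : (tau (m t) : ℝ) ≤ tau t.1.1 * tau t.1.2 * tau t.2 := by exact_mod_cast h1
          calc (tau (m t) : ℝ) ^ 2 ≤ (tau t.1.1 * tau t.1.2 * tau t.2) ^ 2 :=
                pow_le_pow_left₀ (Nat.cast_nonneg _) h2 2
            _ = _ := by ring
      _ = (∑ y ∈ B, (tau y : ℝ) ^ 2) ^ 3 := by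
          rw [pow_succ (∑ y ∈ B, (tau y : ℝ) ^ 2), sq, sum_mul_sum, ← sum_product', sum_mul_sum,
            ← sum_product']
      _ ≤ (2 * Y * (1 + Real.log (2 * Y)) ^ 4) ^ 3 := by
          apply pow_le_pow_left₀ (sum_nonneg fun _ _ => sq_nonneg _)
          exact tau_sum B Y hY fun y hy => (hB y hy).2
  have hL0 : 0 ≤ Real.log (2 * Y) := by
    apply Real.log_nonneg
    have : (1 : ℝ) ≤ Y := by exact_mod_cast hY
    linarith
  calc ∑ x ∈ A, ‖∑ y ∈ B, β y * (J x y : ℂ)‖ ^ 6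
      = ∑ x ∈ A, ‖∑ n ∈ O, γ n * (J x n : ℂ)‖ ^ 2 := by
        refine sum_congr rfl fun x _ => ?_
        rw [← hcube, norm_pow]
        ring
    _ ≤ (N + 16 * (X : ℝ) ^ 3) * ∑ n ∈ O, ‖γ n‖ ^ 2 := ls_dual A X N hA hc γ
    _ ≤ (24 * (Y : ℝ) ^ 3) * (2 * Y * (1 + Real.log (2 * Y)) ^ 4) ^ 3 := by
        apply mul_le_mul _ hγsum (sum_nonneg fun _ _ => sq_nonneg _) (by positivity)
        rw [hN]
        push_cast
        have h1 : (X : ℝ) ≤ Y := by exact_mod_cast hX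
        have h2 : (X : ℝ) ^ 3 ≤ (Y : ℝ) ^ 3 := pow_le_pow_left₀ (Nat.cast_nonneg _) h1 3
        nlinarith
    _ = 192 * (Y : ℝ) ^ 6 * (1 + Real.log (2 * Y)) ^ 12 := by ring

open scoped Classical in
/-- the bilinear sum for `X ≤ Y` -/
theorem bil_le (X Y : ℕ) (α β : ℕ → ℂ) (hX : 1 ≤ X) (hXY : X ≤ Y)
    (hα : ∀ n, ‖α n‖ ≤ 1) (hβ : ∀ n, ‖β n‖ ≤ 1) :
    ‖∑ x ∈ (Ioc X (2 * X)).filter osf, ∑ y ∈ (Ioc Y (2 * Y)).filter osf,
      α x * β y * (J x y : ℂ)‖ ≤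
    12 * (X * Y) * (1 + Real.log (X * Y)) ^ 2 * ((X : ℕ) : ℝ) ^ (-(1 / 8) : ℝ) := by
  classical
  set A := (Ioc X (2 * X)).filter osf with hA
  set B := (Ioc Y (2 * Y)).filter osf with hB
  have hY : 1 ≤ Y := hX.trans hXY
  have hX0 : (0 : ℝ) < X := by exact_mod_cast hX
  have hX1 : (1 : ℝ) ≤ X := by exact_mod_cast hX
  have hY1 : (1 : ℝ) ≤ Y := by exact_mod_cast hY
  have hcA : A.card ≤ X := by
    refine (card_filter_le _ _).trans ?_
    rw [Nat.card_Ioc]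
    omega
  set S : ℕ → ℂ := fun x => ∑ y ∈ B, β y * (J x y : ℂ) with hS
  have h6 : ∑ x ∈ A, ‖S x‖ ^ 6 ≤ 192 * (Y : ℝ) ^ 6 * (1 + Real.log (2 * Y)) ^ 12 := by
    apply sixth A B X Y hXY hY _ hcA _ β hβ
    · intro x hx
      rw [hA, mem_filter, mem_Ioc] at hx
      exact ⟨hx.2.2, hx.1.2⟩
    · intro y hy
      rw [hB, mem_filter, mem_Ioc] at hy
      exact ⟨hy.2.1, by omega, hy.1.2⟩
  set b : ℝ := ‖∑ x ∈ A, ∑ y ∈ B, α x * β y * (J x y : ℂ)‖ with hb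
  have h1 : b ≤ ∑ x ∈ A, ‖S x‖ := by
    rw [hb]
    refine (norm_sum_le _ _).trans (sum_le_sum fun x _ => ?_)
    have e : ∑ y ∈ B, α x * β y * (J x y : ℂ) = α x * S x := by
      rw [hS]
      simp only
      rw [mul_sum]
      exact sum_congr rfl fun y _ => by ring
    rw [e, norm_mul]
    exact mul_le_of_le_one_left (norm_nonneg _) (hα x)
  have h2 : b ^ 6 ≤ (X : ℝ) ^ 5 * (192 * (Y : ℝ) ^ 6 * (1 + Real.log (2 * Y)) ^ 12) := by
    calc b ^ 6 ≤ (∑ x ∈ A, ‖S x‖) ^ 6 := pow_le_pow_left₀ (norm_nonneg _) h1 6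
      _ ≤ (A.card : ℝ) ^ 5 * ∑ x ∈ A, ‖S x‖ ^ 6 :=
          pow_sum_le_card_mul_sum_pow (fun _ _ => norm_nonneg _) 5
      _ ≤ _ := by
          apply mul_le_mul _ h6 (sum_nonneg fun _ _ => by positivity) (by positivity)
          apply pow_le_pow_left₀ (Nat.cast_nonneg _)
          exact_mod_cast hcA
  have hlog : 1 + Real.log (2 * Y) ≤ 2 * (1 + Real.log (X * Y)) := by
    have e1 : Real.log (2 * Y) = Real.log 2 + Real.log Y :=
      Real.log_mul (by norm_num) (by positivity)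
    have e2 : Real.log (X * Y) = Real.log X + Real.log Y :=
      Real.log_mul (by positivity) (by positivity)
    have e3 : Real.log 2 ≤ 1 := by
      have := Real.log_two_lt_d9
      linarith
    have e4 := Real.log_nonneg hX1
    have e5 := Real.log_nonneg hY1
    linarith
  have hl0 : 0 ≤ 1 + Real.log (2 * Y) := by
    have : 0 ≤ Real.log (2 * Y) := Real.log_nonneg (by linarith)
    linarith
  set L : ℝ := 1 + Real.log (X * Y) with hL
  have hL1 : 0 ≤ L := by linarith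
  have h3 : (1 + Real.log (2 * Y)) ^ 12 ≤ (2 * L) ^ 12 := pow_le_pow_left₀ hl0 hlog 12
  set r : ℝ := ((X : ℕ) : ℝ) ^ (-(1 / 8) : ℝ) with hr
  have hr0 : 0 ≤ r := Real.rpow_nonneg hX0.le _
  have hr6 : (X : ℝ)⁻¹ ≤ r ^ 6 := by
    rw [hr, ← Real.rpow_natCast, ← Real.rpow_mul hX0.le, ← Real.rpow_neg_one]
    apply Real.rpow_le_rpow_of_exponent_le hX1
    norm_num
  have h4 : b ^ 6 ≤ (12 * (X * Y) * L ^ 2 * r) ^ 6 := by
    calc b ^ 6 ≤ (X : ℝ) ^ 5 * (192 * (Y : ℝ) ^ 6 * (1 + Real.log (2 * Y)) ^ 12) := h2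
      _ ≤ (X : ℝ) ^ 5 * (192 * (Y : ℝ) ^ 6 * (2 * L) ^ 12) := by gcongr
      _ = (192 * 2 ^ 12) * ((X : ℝ) ^ 6 * (Y : ℝ) ^ 6 * L ^ 12) * (X : ℝ)⁻¹ := by
          field_simp
      _ ≤ (12 ^ 6) * ((X : ℝ) ^ 6 * (Y : ℝ) ^ 6 * L ^ 12) * r ^ 6 := by
          gcongr
          norm_num
      _ = _ := by ring
  have h5 : 0 ≤ 12 * (X * Y) * L ^ 2 * r := by positivity
  exact le_of_pow_le_pow_left₀ (n := 6) (by norm_num) h5 h4

/-- the character modulo four -/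
def ch (n : ℕ) : ℂ := if n % 4 = 3 then -1 else 1

theorem ch_norm (n : ℕ) : ‖ch n‖ ≤ 1 := by
  unfold ch
  split_ifs <;> simp

theorem recip {x y : ℕ} (hx : Odd x) (hy : Odd y) :
    (J x y : ℂ) = (1 + ch x + ch y - ch x * ch y) / 2 * (J y x : ℂ) := by
  have h := jacobiSym.quadratic_reciprocity_if (Nat.odd_iff.1 hx) (Nat.odd_iff.1 hy)
  unfold J ch
  rw [← h]
  by_cases h1 : x % 4 = 3 <;> by_cases h2 : y % 4 = 3 <;> simp [h1, h2] <;> ring

/-- **Job BIL.** -/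
theorem t_BIL : S_BIL := by
  classical
  refine ⟨24, 2, by norm_num, fun X Y α β hX hY hα hβ => ?_⟩
  rcases le_total X Y with h | h
  · rw [min_eq_left h]
    refine (bil_le X Y α β hX h hα hβ).trans ?_
    have h1 : 0 ≤ (X * Y : ℝ) * (1 + Real.log (X * Y)) ^ 2 * ((X : ℕ) : ℝ) ^ (-(1 / 8) : ℝ) := by
      positivity
    nlinarith
  · rw [min_eq_right h]
    set A := (Ioc X (2 * X)).filter osf with hA
    set B := (Ioc Y (2 * Y)).filter osf with hB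
    have key : ∀ a b : ℕ → ℂ, (∀ n, ‖a n‖ ≤ 1) → (∀ n, ‖b n‖ ≤ 1) →
        ‖∑ y ∈ B, ∑ x ∈ A, b y * a x * (J y x : ℂ)‖ ≤
        12 * (X * Y) * (1 + Real.log (X * Y)) ^ 2 * ((Y : ℕ) : ℝ) ^ (-(1 / 8) : ℝ) := by
      intro a b ha hb
      have := bil_le Y X b a hY h hb ha
      rw [mul_comm (Y : ℝ) X] at this
      exact this
    have hmul : ∀ a : ℕ → ℂ, (∀ n, ‖a n‖ ≤ 1) → ∀ n, ‖ch n * a n‖ ≤ 1 := by
      intro a ha n
      rw [norm_mul]
      exact mul_le_one₀ (ch_norm n) (norm_nonneg _) (ha n)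
    have k1 := key α β hα hβ
    have k2 := key (fun n => ch n * α n) β (hmul α hα) hβ
    have k3 := key α (fun n => ch n * β n) hα (hmul β hβ)
    have k4 := key (fun n => ch n * α n) (fun n => ch n * β n) (hmul α hα) (hmul β hβ)
    have e : ∑ x ∈ A, ∑ y ∈ B, α x * β y * (J x y : ℂ) =
        (1 / 2 : ℂ) * (∑ y ∈ B, ∑ x ∈ A, β y * α x * (J y x : ℂ) +
          ∑ y ∈ B, ∑ x ∈ A, β y * (ch x * α x) * (J y x : ℂ) +
          ∑ y ∈ B, ∑ x ∈ A, (ch y * β y) * α x * (J y x : ℂ) -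
          ∑ y ∈ B, ∑ x ∈ A, (ch y * β y) * (ch x * α x) * (J y x : ℂ)) := by
      rw [sum_comm, ← sum_add_distrib, ← sum_add_distrib, ← sum_sub_distrib, mul_sum]
      refine sum_congr rfl fun y hy => ?_
      rw [← sum_add_distrib, ← sum_add_distrib, ← sum_sub_distrib, mul_sum]
      refine sum_congr rfl fun x hx => ?_
      rw [recip (mem_filter.1 hx).2.1 (mem_filter.1 hy).2.1]
      ring
    rw [e, norm_mul]
    have n1 : ‖(1 / 2 : ℂ)‖ = 1 / 2 := by norm_num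
    rw [n1]
    refine (mul_le_mul_of_nonneg_left ((norm_sub_le _ _).trans (add_le_add
      ((norm_add_le _ _).trans (add_le_add ((norm_add_le _ _).trans (add_le_add k1 k2)) k3)) k4))
      (by norm_num)).trans ?_
    apply le_of_eq
    ring

end

end Pool.Agent.Y905.FK

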